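import Mathlib
import Pool.Agent.H.MP_6c0529_co.B

namespace Pool.Agent.Results.MP_6c0529_co.Gap

open SimpleGraph

def BinTree {n : ℕ} {V : Type} (G : SimpleGraph V) (l : Fin n → V) : Prop :=
  Finite V ∧ G.IsTree ∧ (∀ v, (G.neighborSet v).ncard = 1 ∨ (G.neighborSet v).ncard = 3) ∧
    l.Injective ∧ Set.range l = {v | (G.neighborSet v).ncard = 1}

def Cat {V : Type} (G : SimpleGraph V) : Prop :=
  ∃ m, Nonempty (pathGraph m ≃g G.induce {v | (G.neighborSet v).ncard ≠ 1})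

def parts {n : ℕ} {V : Type} (G : SimpleGraph V) (l : Fin n → V) : Set (Setoid (Fin n)) :=
  {P | ∃ F ⊆ G.edgeSet, ∀ i j, P i j ↔ (G.deleteEdges F).Reachable (l i) (l j)}

noncomputable def s (n : ℕ) : ℕ :=
  sInf {k | ∃ (V W : Type) (G : SimpleGraph V) (H : SimpleGraph W) (l : Fin n → V) (m : Fin n → W),
    BinTree G l ∧ BinTree H m ∧ k = (parts G l ∩ parts H m).ncard}

noncomputable def c (n : ℕ) : ℕ :=
  sInf {k | ∃ (V W : Type) (G : SimpleGraph V) (H : SimpleGraph W) (l : Fin n → V) (m : Fin n → W),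
    BinTree G l ∧ BinTree H m ∧ Cat G ∧ Cat H ∧ k = (parts G l ∩ parts H m).ncard}

open Pool.Agent.H.MP_6c0529_co

def tr (p : Fin 12 → Fin 12) : SimpleGraph (Fin 12) := fromRel fun a b => p a = b

instance (p) : DecidableRel (tr p).Adj := fun _ _ => decidable_of_iff _ (fromRel_adj _ _ _).symm

def p1 : Fin 12 → Fin 12 := ![7, 7, 8, 9, 10, 11, 11, 8, 9, 10, 11, 11]

def p2 : Fin 12 → Fin 12 := ![11, 8, 7, 10, 8, 7, 11, 9, 9, 10, 11, 11]

theorem nc (p v) : ((tr p).neighborSet v).ncard = (tr p).degree v := by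
  rw [← card_neighborSet_eq_degree, ← Nat.card_eq_fintype_card, Nat.card_coe_set_eq]

theorem bt {p : Fin 12 → Fin 12} (h1 : ∀ v, v ≠ 11 → v < p v) (h2 : (tr p).edgeFinset.card = 11)
    (h3 : ∀ v, (tr p).degree v = if v.1 < 7 then 1 else 3) :
    BinTree (tr p) (Fin.castLE (by decide : 7 ≤ 12)) := by
  have k (v : Fin 12) : (tr p).Reachable v 11 := by
    induction v using WellFoundedGT.induction with | _ v ih
    by_cases e : v = 11
    · rw [e]
    · exact (Adj.reachable ((fromRel_adj _ _ _).2 ⟨(h1 v e).ne, .inl rfl⟩)).trans (ih _ (h1 v e))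
  refine ⟨inferInstance, isTree_iff_connected_and_card.2 ⟨⟨fun u v => (k u).trans (k v).symm⟩, ?_⟩,
    fun v => ?_, Fin.castLE_injective _, ?_⟩
  · rw [Nat.card_eq_fintype_card, ← edgeFinset_card, h2]
    simp
  · rw [nc, h3]
    split_ifs <;> simp
  · ext v
    simp [nc, h3]

theorem cross {p : Fin 12 → Fin 12} {P : Setoid (Fin 7)}
    (hP : P ∈ parts (tr p) (Fin.castLE (by decide : 7 ≤ 12))) (M : ℕ) (u : Fin 12)
    (h : ∀ x y, (tr p).Adj x y → M.testBit x ≠ M.testBit y → x = u ∨ y = u) {x : List ℕ × List ℕ}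
    (hx : ∀ a ∈ x.1, ∀ b ∈ x.2, M.testBit a ≠ M.testBit b) (a b c d : Fin 7) (ha : a.1 ∈ x.1)
    (hb : b.1 ∈ x.2) (hc : c.1 ∈ x.1) (hd : d.1 ∈ x.2) (r1 : P a b) (r2 : P c d) : P a c := by
  obtain ⟨F, -, hF⟩ := hP
  exact (hF _ _).2 ((thru h ((hF _ _).1 r1) (hx _ ha _ hb)).trans
    (thru h ((hF _ _).1 r2) (hx _ hc _ hd)).symm)

theorem result : s 7 < c 7 := by
  have d1 : ∀ v, (tr p1).degree v = if v.1 < 7 then 1 else 3 := by decide
  have b1 := bt (p := p1) (by decide) (by decide) d1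
  have b2 := bt (p := p2) (by decide) (by decide) (by decide)
  have k : Cat (tr p1) := ⟨5, ⟨Equiv.ofBijective (fun j => ⟨j.natAdd 7, by simp [nc, d1]⟩)
    ⟨fun a b h => Fin.natAdd_injective _ _ (congrArg Subtype.val h), fun ⟨v, h⟩ => ⟨⟨v - 7, by omega⟩, Subtype.ext (Fin.ext (by
      simp [nc, d1] at h ⊢
      omega))⟩⟩, by
    intro a b
    rw [pathGraph_adj]
    change (tr p1).Adj (a.natAdd 7) (b.natAdd 7) ↔ _
    revert a b
    decide⟩⟩
  refine lt_of_le_of_lt (b := 125) (le_trans (b := (parts (tr p1) _ ∩ parts (tr p2) _).ncard)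
    (Nat.sInf_le ⟨_, _, _, _, _, _, b1, b2, rfl⟩) (upper _ ?_))
    (Nat.succ_le_iff.1 (le_csInf ⟨_, _, _, _, _, _, _, b1, b1, k, k, rfl⟩ ?_))
  · rintro P ⟨h1, h2⟩ x hx
    simp only [Sp, List.mem_cons, List.not_mem_nil, or_false] at hx
    rcases hx with rfl | rfl | rfl | rfl | rfl | rfl | rfl | rfl
    exacts [cross h1 131 7 (by decide) (by decide), cross h1 391 8 (by decide) (by decide),
      cross h1 911 9 (by decide) (by decide), cross h1 1951 10 (by decide) (by decide),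
      cross h2 164 7 (by decide) (by decide), cross h2 274 8 (by decide) (by decide),
      cross h2 950 9 (by decide) (by decide), cross h2 1982 10 (by decide) (by decide)]
  rintro _ ⟨V, W, G, H, l, m, ⟨_, g1, g2, g3, g4⟩, ⟨_, h1, h2, h3, h4⟩, ⟨_, ⟨e⟩⟩, ⟨_, ⟨f⟩⟩, rfl⟩
  have g5 (j) : (G.neighborSet (l j)).ncard = 1 := (Set.ext_iff.1 g4 _).1 ⟨j, rfl⟩
  have h5 (j) : (H.neighborSet (m j)).ncard = 1 := (Set.ext_iff.1 h4 _).1 ⟨j, rfl⟩
  obtain ⟨σ, hσ⟩ := cat g1 (fun v => by have := g2 v; omega) g3 g5 e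
  obtain ⟨τ, hτ⟩ := cat h1 (fun v => by have := h2 v; omega) h3 h5 f
  exact lower σ τ _ fun A B p q =>
    ⟨sepreal g3 g5 (.inl (hσ A B p)), sepreal h3 h5 (q.imp (hτ A B) (hτ B A))⟩

end Pool.Agent.Results.MP_6c0529_co.Gap
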